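import Pool.Agent.W716.FV.StmB

/-!
# Project FV, task CV: the covering theorem
-/

set_option autoImplicit false

open MeasureTheory Metric Set Filter Topology InnerProductGeometry

namespace Pool.Agent.W440.FV

open Pool.Agent.W716.FV
open Pool.Agent.H241R3.FV (Sph ext RChart Fill Triang)

/-! ### algebra modulo 2 -/

theorem pr_zero {V : Type} (k : ℕ) (l : List V) : pr k (fun _ => (0 : ZMod 2)) l = 0 := by
  induction l with
  | nil => rfl
  | cons v t ih =>
    show (0 : ZMod 2) + pr k (fun _ => 0) t = 0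
    rw [ih, add_zero]

theorem tele (a : ℕ → ZMod 2) (N : ℕ) :
    ∑ k ∈ Finset.range N, (a (k + 1) + a k) = a N + a 0 := by
  induction N with
  | zero => simp [CharTwo.add_self_eq_zero]
  | succ N ih =>
    rw [Finset.sum_range_succ, ih]
    have : a N + a 0 + (a (N + 1) + a N) = (a N + a N) + (a (N + 1) + a 0) := by ring
    rw [this, CharTwo.add_self_eq_zero, zero_add]

/-! ### convex hulls -/

theorem hull_null {V : Type} [NormedAddCommGroup V] [NormedSpace ℝ V] [FiniteDimensional ℝ V]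
    [MeasurableSpace V] [BorelSpace V] (μ : Measure V) [μ.IsAddHaarMeasure] (s : Finset V)
    (hs : s.card ≤ Module.finrank ℝ V) : μ (convexHull ℝ (s : Set V)) = 0 := by
  classical
  rcases s.eq_empty_or_nonempty with h | h
  · rw [h]; simp
  · refine measure_mono_null (convexHull_subset_affineSpan _) ?_
    apply Measure.addHaar_affineSubspace
    intro htop
    obtain ⟨n, hn⟩ : ∃ n, s.card = n + 1 := ⟨s.card - 1, by
      have := Finset.card_pos.2 h
      omega⟩
    have h1 := finrank_vectorSpan_image_finset_le ℝ (id : V → V) s hn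
    rw [Finset.image_id] at h1
    have h2 : vectorSpan ℝ (s : Set V) = ⊤ := by
      rw [← direction_affineSpan, htop, AffineSubspace.direction_top]
    rw [h2, finrank_top] at h1
    omega

section vert

variable {n : ℕ} {s : ℝ} {τ : E n} {A : Set (ℝ × E n)}

theorem vert1 (hy : ((s, τ) : ℝ × E n) ∈ convexHull ℝ (insert (s + 1, τ) A)) :
    ∃ h ∈ convexHull ℝ A, h.2 = τ := by
  rcases A.eq_empty_or_nonempty with hA | hA
  · subst hA
    rw [insert_empty_eq, convexHull_singleton, mem_singleton_iff] at hy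
    have := congrArg Prod.fst hy
    simp at this
  · rw [convexHull_insert hA, mem_convexJoin] at hy
    obtain ⟨x, hx, h, hh, hseg⟩ := hy
    rw [mem_singleton_iff] at hx
    subst hx
    obtain ⟨a, b, ha, hb, hab, he⟩ := hseg
    refine ⟨h, hh, ?_⟩
    have e1 : a * (s + 1) + b * h.1 = s := by
      have := congrArg Prod.fst he
      simpa using this
    have e2 : a • τ + b • h.2 = τ := by
      have := congrArg Prod.snd he
      simpa using this
    have hb0 : b ≠ 0 := by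
      rintro rfl
      have : a = 1 := by linarith
      rw [this] at e1
      linarith
    have e3 : b • (h.2 - τ) = 0 := by
      have ha' : a = 1 - b := by linarith
      rw [ha', sub_smul, one_smul] at e2
      rw [smul_sub]
      have : b • h.2 - b • τ = (τ - b • τ + b • h.2) - τ := by abel
      rw [this, e2, sub_self]
    rcases smul_eq_zero.1 e3 with h0 | h0
    · exact absurd h0 hb0
    · exact sub_eq_zero.1 h0

theorem vert2 {h : ℝ × E n} (hh : h ∈ convexHull ℝ A) (h2 : h.2 = τ) (h1 : h.1 ≤ s) :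
    ((s, τ) : ℝ × E n) ∈ convexHull ℝ (insert (s + 1, τ) A) := by
  have m1 : h ∈ convexHull ℝ (insert ((s + 1, τ) : ℝ × E n) A) :=
    convexHull_mono (subset_insert _ _) hh
  have m2 : ((s + 1, τ) : ℝ × E n) ∈ convexHull ℝ (insert ((s + 1, τ) : ℝ × E n) A) :=
    subset_convexHull ℝ _ (mem_insert _ _)
  have hden : 0 < s + 1 - h.1 := by linarith
  have hc := (convex_convexHull ℝ (insert ((s + 1, τ) : ℝ × E n) A)) m1 m2
    (a := 1 / (s + 1 - h.1)) (b := (s - h.1) / (s + 1 - h.1)) (by positivity)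
    (div_nonneg (by linarith) hden.le) (by
      rw [← add_div, div_eq_one_iff_eq hden.ne']
      ring)
  convert hc using 1
  ext1
  · simp only [Prod.fst_add, Prod.smul_fst, smul_eq_mul]
    field_simp
    ring
  · simp only [Prod.snd_add, Prod.smul_snd]
    have e : 1 / (s + 1 - h.1) + (s - h.1) / (s + 1 - h.1) = 1 := by
      field_simp
      ring
    rw [h2, ← add_smul, e, one_smul]

end vert

theorem top_bound {n : ℕ} (A : Set (ℝ × E n)) (τ : E n) (ρ : ℝ)
    (hA : ∀ q ∈ A, q.1 = ‖q.2‖ ^ 2 / 6 ∧ ‖q.2 - τ‖ ≤ ρ) {h : ℝ × E n} (hh : h ∈ convexHull ℝ A)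
    (h2 : h.2 = τ) : h.1 ≤ (‖τ‖ ^ 2 + ρ ^ 2) / 6 := by
  set H : Set (ℝ × E n) := {q | q.1 ≤ (‖τ‖ ^ 2 + 2 * inner ℝ τ (q.2 - τ) + ρ ^ 2) / 6} with hH
  have hAH : A ⊆ H := by
    intro q hq
    obtain ⟨a1, a2⟩ := hA q hq
    show q.1 ≤ (‖τ‖ ^ 2 + 2 * inner ℝ τ (q.2 - τ) + ρ ^ 2) / 6
    have e1 : q.2 = τ + (q.2 - τ) := by abel
    have e2 := norm_add_sq_real τ (q.2 - τ)
    rw [← e1] at e2
    have e3 : ‖q.2 - τ‖ ^ 2 ≤ ρ ^ 2 := pow_le_pow_left₀ (norm_nonneg _) a2 2
    rw [a1, e2]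
    linarith
  have hHc : Convex ℝ H := by
    intro x hx y hy a b ha hb hab
    have hx' : x.1 ≤ (‖τ‖ ^ 2 + 2 * inner ℝ τ (x.2 - τ) + ρ ^ 2) / 6 := hx
    have hy' : y.1 ≤ (‖τ‖ ^ 2 + 2 * inner ℝ τ (y.2 - τ) + ρ ^ 2) / 6 := hy
    show (a • x + b • y).1 ≤ (‖τ‖ ^ 2 + 2 * inner ℝ τ ((a • x + b • y).2 - τ) + ρ ^ 2) / 6
    have e1 : (a • x + b • y).1 = a * x.1 + b * y.1 := rfl
    have e2 : (a • x + b • y).2 - τ = a • (x.2 - τ) + b • (y.2 - τ) := by
      have : (a • x + b • y).2 = a • x.2 + b • y.2 := rfl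
      rw [this, smul_sub, smul_sub]
      have h3 : τ = a • τ + b • τ := by rw [← add_smul, hab, one_smul]
      conv_lhs => rw [h3]
      abel
    rw [e1, e2, inner_add_right, inner_smul_right, inner_smul_right]
    have m1 := mul_le_mul_of_nonneg_left hx' ha
    have m2 := mul_le_mul_of_nonneg_left hy' hb
    have hb' : b = 1 - a := by linarith
    subst hb'
    nlinarith
  have := convexHull_min hAH hHc hh
  have h3 : h.1 ≤ (‖τ‖ ^ 2 + 2 * inner ℝ τ (h.2 - τ) + ρ ^ 2) / 6 := this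
  rw [h2, sub_self, inner_zero_right] at h3
  linarith

theorem ord_length {V : Type} [DecidableEq V] (F : Finset V) (l : List V) (h1 : l.Nodup)
    (h2 : ∀ v, v ∈ l ↔ v ∈ F) : l.length = F.card := by
  have : l.toFinset = F := by
    ext v
    rw [List.mem_toFinset, h2]
  rw [← this, List.toFinset_card_of_nodup h1]

theorem main (hCA : ChainAlg) (hCC : PrCongr) (hCT : ChainTri) (hEL : EvenList)
    (hBP : BottomPar) (_hGen : Pool.Agent.H241R3.FV.TaskGen) : Cover := by
  intro d hd M _ _ bd hbd hTr η Ψ hΨ hΨbd hΨ0 hΨlow z0 hz0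
  classical
  by_contra hcon
  push Not at hcon
  -- the radius
  set R0 : ℝ := ‖η‖ + 6 * (|z0.1| + 3) + 2 * (‖z0.2 + η‖ + 1) with hR0d
  have nη := norm_nonneg η
  have nz := norm_nonneg (z0.2 + η)
  have az := abs_nonneg z0.1
  have hR0 : 0 < R0 := by rw [hR0d]; positivity
  have hlow : z0.1 + 2 < (R0 - ‖η‖) ^ 2 / 6 := by
    have h1 : 6 * (|z0.1| + 3) ≤ R0 - ‖η‖ := by rw [hR0d]; linarith
    have h2 : (6 * (|z0.1| + 3)) ^ 2 ≤ (R0 - ‖η‖) ^ 2 := pow_le_pow_left₀ (by positivity) h1 2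
    have h3 := le_abs_self z0.1
    nlinarith
  have hR0' : ‖z0.2 + η‖ + 1 < R0 / 2 := by rw [hR0d]; linarith
  -- the compact set
  set K : Set (ℝ × E (d + 1)) := (fun z : ℝ × M => Ψ z.1 z.2) '' (Icc 0 R0 ×ˢ univ) with hK
  have hKc : IsClosed K := ((isCompact_Icc.prod isCompact_univ).image hΨ).isClosed
  have hz0K : z0 ∉ K := by
    rintro ⟨⟨R, q⟩, ⟨hR, -⟩, he⟩
    exact hcon R q hR.1 he
  obtain ⟨ρ, hρ, hball⟩ := Metric.isOpen_iff.1 hKc.isOpen_compl z0 hz0K
  set m0 : ℝ := z0.1 - ‖z0.2‖ ^ 2 / 6 with hm0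
  have hm0p : 0 < m0 := by rw [hm0]; linarith
  obtain ⟨r1, hr1, hφ⟩ : ∃ r1 : ℝ, 0 < r1 ∧ ∀ q ∈ ball z0 r1, m0 / 2 < q.1 - ‖q.2‖ ^ 2 / 6 := by
    have hc : Continuous fun q : ℝ × E (d + 1) => q.1 - ‖q.2‖ ^ 2 / 6 := by fun_prop
    have ho : IsOpen {q : ℝ × E (d + 1) | m0 / 2 < q.1 - ‖q.2‖ ^ 2 / 6} :=
      isOpen_lt continuous_const hc
    obtain ⟨r1, hr1, hsub⟩ := Metric.isOpen_iff.1 ho z0 (by
      show m0 / 2 < z0.1 - ‖z0.2‖ ^ 2 / 6
      rw [← hm0]; linarith)
    exact ⟨r1, hr1, fun q hq => hsub hq⟩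
  obtain ⟨δ, hδ, hδρ, hδr, hδ4, hδm⟩ : ∃ δ : ℝ, 0 < δ ∧ 3 * δ ≤ ρ ∧ δ ≤ r1 ∧ δ ≤ 1 / 4 ∧
      δ ≤ m0 / 2 := by
    refine ⟨min (min (ρ / 3) r1) (min (1 / 4) (m0 / 2)), by positivity, ?_, ?_, ?_, ?_⟩
    · have := (min_le_left (min (ρ / 3) r1) (min (1 / 4) (m0 / 2))).trans (min_le_left _ _)
      linarith
    · exact (min_le_left _ _).trans (min_le_right _ _)
    · exact (min_le_right _ _).trans (min_le_left _ _)
    · exact (min_le_right _ _).trans (min_le_right _ _)
  -- uniform continuity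
  have hU := (isCompact_Icc.prod isCompact_univ).uniformContinuousOn_of_continuous
    (s := Icc (0 : ℝ) R0 ×ˢ (univ : Set M)) hΨ.continuousOn
  obtain ⟨e, he, hU⟩ := Metric.uniformContinuousOn_iff.1 hU δ hδ
  obtain ⟨N, hN⟩ := exists_nat_gt (R0 / e)
  have hN0 : (0 : ℝ) < N := lt_trans (by positivity) hN
  have hNe : R0 / N < e := by
    rw [div_lt_iff₀ he] at hN
    rw [div_lt_iff₀ hN0]
    linarith
  obtain ⟨Tr⟩ := hTr (min e 1) (by positivity)
  have := Tr.fin
  have := Tr.dec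
  obtain ⟨ord, hord, hordT, hordB⟩ := hCT d M bd (min e 1) Tr
  set r : ℕ → ℝ := fun k => k * (R0 / N) with hr
  have hr0 : r 0 = 0 := by simp [hr]
  have hrN : r N = R0 := by
    simp only [hr]
    field_simp
  have hstep : 0 < R0 / N := by positivity
  have hrmem : ∀ k : ℕ, k ≤ N → r k ∈ Icc (0 : ℝ) R0 := by
    intro k hk
    refine ⟨by simp only [hr]; positivity, ?_⟩
    rw [← hrN]
    simp only [hr]
    exact mul_le_mul_of_nonneg_right (by exact_mod_cast hk) hstep.le
  set p : Tr.V × ℕ → ℝ × E (d + 1) := fun x => Ψ (r x.2) (Tr.pos x.1) with hp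
  -- closeness of the points of a prism
  have hclose : ∀ σ ∈ Tr.T, ∀ v ∈ σ, ∀ w ∈ σ, ∀ k < N, ∀ i j : ℕ, (i = k ∨ i = k + 1) →
      (j = k ∨ j = k + 1) → dist (p (v, i)) (p (w, j)) < δ := by
    intro σ hσ v hv w hw k hk i j hi hj
    have hrd : dist (r i) (r j) < e := by
      rw [Real.dist_eq]
      have h1 : |r i - r j| ≤ R0 / N := by
        have h2 : r i - r j = ((i : ℝ) - j) * (R0 / N) := by simp only [hr]; ring
        rw [h2, abs_mul, abs_of_pos hstep]
        have h3 : |(i : ℝ) - j| ≤ 1 := by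
          rcases hi with rfl | rfl <;> rcases hj with rfl | rfl <;> push_cast <;> simp
        calc |(i : ℝ) - j| * (R0 / N) ≤ 1 * (R0 / N) := mul_le_mul_of_nonneg_right h3 hstep.le
          _ = R0 / N := one_mul _
      exact lt_of_le_of_lt h1 hNe
    have hi' : i ≤ N := by rcases hi with rfl | rfl <;> omega
    have hj' : j ≤ N := by rcases hj with rfl | rfl <;> omega
    refine hU (r i, Tr.pos v) ⟨hrmem i hi', mem_univ _⟩ (r j, Tr.pos w) ⟨hrmem j hj', mem_univ _⟩ ?_
    rw [Prod.dist_eq]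
    exact max_lt hrd (lt_of_lt_of_le (Tr.mesh σ hσ v hv w hw) (min_le_left _ _))
  -- generic points
  have hHaar : (volume : Measure (ℝ × E (d + 1))).IsAddHaarMeasure := by
    rw [Measure.volume_eq_prod]; infer_instance
  have hg1 : ∀ᵐ y ∂(volume : Measure (ℝ × E (d + 1))), ∀ s : Finset (Tr.V × ℕ),
      s.card ≤ d + 2 → y ∉ convexHull ℝ (p '' (s : Set (Tr.V × ℕ))) := by
    rw [ae_all_iff]
    intro s
    by_cases hs : s.card ≤ d + 2
    · have hfr : Module.finrank ℝ (ℝ × E (d + 1)) = d + 2 := by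
        rw [Module.finrank_prod, Module.finrank_self, finrank_euclideanSpace_fin]
        ring
      have h0 := hull_null (volume : Measure (ℝ × E (d + 1))) (s.image p) (by
        rw [hfr]; exact Finset.card_image_le.trans hs)
      rw [Finset.coe_image] at h0
      filter_upwards [measure_eq_zero_iff_ae_notMem.mp h0] with y hy _
      exact hy
    · exact Eventually.of_forall fun y h => absurd h hs
  have hg2 : ∀ᵐ τ ∂(volume : Measure (E (d + 1))), ∀ s : Finset (Tr.V × ℕ),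
      s.card ≤ d + 1 → τ ∉ convexHull ℝ ((fun x => (p x).2) '' (s : Set (Tr.V × ℕ))) := by
    rw [ae_all_iff]
    intro s
    by_cases hs : s.card ≤ d + 1
    · have h0 := hull_null (volume : Measure (E (d + 1))) (s.image fun x => (p x).2) (by
        rw [finrank_euclideanSpace_fin]; exact Finset.card_image_le.trans hs)
      rw [Finset.coe_image] at h0
      filter_upwards [measure_eq_zero_iff_ae_notMem.mp h0] with y hy _
      exact hy
    · exact Eventually.of_forall fun y h => absurd h hs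
  have hg3 : ∀ᵐ τ ∂(volume : Measure (E (d + 1))), τ ≠ -η := by
    have h0 := hull_null (volume : Measure (E (d + 1))) {-η} (by
      rw [finrank_euclideanSpace_fin, Finset.card_singleton]; omega)
    rw [Finset.coe_singleton, convexHull_singleton] at h0
    filter_upwards [measure_eq_zero_iff_ae_notMem.mp h0] with y hy
    exact hy
  have hg4 := hBP d hd M bd hbd (min e 1) (min_le_right _ _) Tr ord hord hordB r N hr0
    (by rw [hrN]; exact hR0) η
  have hgs := hg2.and (hg3.and hg4)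
  have hsnd : ∀ᵐ y ∂(volume : Measure (ℝ × E (d + 1))),
      (∀ s : Finset (Tr.V × ℕ), s.card ≤ d + 1 →
        y.2 ∉ convexHull ℝ ((fun x => (p x).2) '' (s : Set (Tr.V × ℕ)))) ∧ y.2 ≠ -η ∧
      (‖y.2 + η‖ < r N / 2 → ∑ F ∈ Tr.B, ∑ k ∈ Finset.range N,
        pr k (hl (fun x : Tr.V × ℕ => r x.2 • (Tr.b x.1 : E (d + 1)) - η) y.2) (ord F) = 1) := by
    rw [Measure.volume_eq_prod]
    exact Measure.quasiMeasurePreserving_snd.ae hgs
  obtain ⟨y, hyb, hy1, hy2, hy3, hy4⟩ : ∃ y : ℝ × E (d + 1), y ∈ ball z0 δ ∧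
      (∀ s : Finset (Tr.V × ℕ), s.card ≤ d + 2 →
        y ∉ convexHull ℝ (p '' (s : Set (Tr.V × ℕ)))) ∧
      (∀ s : Finset (Tr.V × ℕ), s.card ≤ d + 1 →
        y.2 ∉ convexHull ℝ ((fun x => (p x).2) '' (s : Set (Tr.V × ℕ)))) ∧ y.2 ≠ -η ∧
      (‖y.2 + η‖ < r N / 2 → ∑ F ∈ Tr.B, ∑ k ∈ Finset.range N,
        pr k (hl (fun x : Tr.V × ℕ => r x.2 • (Tr.b x.1 : E (d + 1)) - η) y.2) (ord F) = 1) := by
    have hpos := (Metric.isOpen_ball : IsOpen (ball z0 δ)).measure_pos volume ⟨z0, mem_ball_self hδ⟩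
    have hfr := (frequently_ae_mem_iff.mpr hpos.ne').and_eventually (hg1.and hsnd)
    obtain ⟨y, ha, hb, hc, hd', he'⟩ := hfr.exists
    exact ⟨y, ha, hb, hc, hd', he'⟩
  obtain ⟨s, τ⟩ := y
  simp only at hy2 hy3 hy4
  rw [mem_ball, Prod.dist_eq, max_lt_iff] at hyb
  obtain ⟨hys, hyτ⟩ := hyb
  simp only at hys hyτ
  have hyb : ((s, τ) : ℝ × E (d + 1)) ∈ ball z0 δ := by
    rw [mem_ball, Prod.dist_eq]; exact max_lt hys hyτ
  rw [Real.dist_eq, abs_lt] at hys
  have hφy := hφ _ (ball_subset_ball hδr hyb)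
  simp only at hφy
  have hsτ : (‖τ‖ ^ 2 + δ ^ 2) / 6 ≤ s := by nlinarith [sq_nonneg ‖τ‖]
  set zt : ℝ × E (d + 1) := (s + 1, τ) with hzt
  set ω : List (Tr.V × ℕ) → ZMod 2 := hz zt p (s, τ) with hω
  have hfr2 : Module.finrank ℝ (ℝ × E (d + 1)) = d + 2 := by
    rw [Module.finrank_prod, Module.finrank_self, finrank_euclideanSpace_fin]
    ring
  -- general position
  have hgen : ∀ t : Finset (Option (Tr.V × ℕ)), t.card ≤ Module.finrank ℝ (ℝ × E (d + 1)) →
      ((s, τ) : ℝ × E (d + 1)) ∉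
        convexHull ℝ ((fun o : Option (Tr.V × ℕ) => o.elim zt p) '' (t : Set _)) := by
    intro t ht hmem
    rw [hfr2] at ht
    by_cases hnone : none ∈ t
    · have hsub : (fun o : Option (Tr.V × ℕ) => o.elim zt p) '' (t : Set _) ⊆
          insert zt (p '' (t.eraseNone : Set (Tr.V × ℕ))) := by
        rintro _ ⟨o, ho, rfl⟩
        cases o with
        | none => exact mem_insert _ _
        | some x => exact mem_insert_of_mem _ ⟨x, by simpa using ho, rfl⟩
      obtain ⟨h, hh, h2⟩ := vert1 (convexHull_mono hsub hmem)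
      have hcard : t.eraseNone.card ≤ d + 1 := by
        have : t.eraseNone.card + 1 = t.card := by
          have h5 := Finset.card_eraseNone_eq_card_erase t
          rw [Finset.card_erase_of_mem hnone] at h5
          have h6 := Finset.card_pos.2 ⟨_, hnone⟩
          omega
        omega
      apply hy2 t.eraseNone hcard
      have h3 : h.2 ∈ (LinearMap.snd ℝ ℝ (E (d + 1))) ''
          convexHull ℝ (p '' (t.eraseNone : Set (Tr.V × ℕ))) := ⟨h, hh, rfl⟩
      rw [LinearMap.image_convexHull, image_image] at h3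
      rw [← h2]
      exact h3
    · have hsub : (fun o : Option (Tr.V × ℕ) => o.elim zt p) '' (t : Set _) ⊆
          p '' (t.eraseNone : Set (Tr.V × ℕ)) := by
        rintro _ ⟨o, ho, rfl⟩
        cases o with
        | none => exact absurd ho hnone
        | some x => exact ⟨x, by simpa using ho, rfl⟩
      have hcard : t.eraseNone.card ≤ d + 2 := by
        have h5 := Finset.card_eraseNone_eq_card_erase t
        rw [Finset.erase_eq_of_notMem hnone] at h5
        omega
      exact hy1 _ hcard (convexHull_mono hsub hmem)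
  -- (1)
  have hzero : ∀ σ ∈ Tr.T, ∀ k < N, pr k (dd ω) (ord σ) = 0 := by
    intro σ hσ k hk
    rw [← pr_zero k (ord σ)]
    refine hCC _ k _ _ (ord σ) (hord σ).1 ?_
    intro t htn htl htm
    have hlen : (ord σ).length = d + 2 := by
      rw [ord_length σ (ord σ) (hord σ).1 (hord σ).2, Tr.card_T σ hσ]
    rw [← hEL (ℝ × E (d + 1)) _ p zt (s, τ) t htn (by rw [htl, hlen, hfr2]) hgen]
    unfold hl
    rw [if_neg]
    intro hmem
    obtain ⟨v0, hv0⟩ : ∃ v0, v0 ∈ t := by
      rcases t with _ | ⟨a, t⟩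
      · simp at htl
      · exact ⟨a, List.mem_cons_self⟩
    have hsub : convexHull ℝ (p '' {v | v ∈ t}) ⊆ closedBall (p v0) δ := by
      refine convexHull_min ?_ (convex_closedBall _ _)
      rintro _ ⟨w, hw, rfl⟩
      rw [mem_closedBall]
      exact (hclose σ hσ w.1 (((hord σ).2 _).1 (htm w hw).1) v0.1 (((hord σ).2 _).1 (htm v0 hv0).1)
        k hk w.2 v0.2 (htm w hw).2 (htm v0 hv0).2).le
    have h1 := hsub hmem
    have h2 : p v0 ∈ ball z0 ρ := by
      rw [mem_ball]
      rw [mem_closedBall] at h1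
      rw [mem_ball] at hyb
      calc dist (p v0) z0 ≤ dist (p v0) (s, τ) + dist (s, τ) z0 := dist_triangle _ _ _
        _ < δ + δ := by
          rw [dist_comm (p v0)]
          exact add_lt_add_of_le_of_lt h1 hyb
        _ ≤ ρ := by linarith
    have hle : v0.2 ≤ N := by
      rcases (htm v0 hv0).2 with h | h <;> omega
    exact hball h2 ⟨(r v0.2, Tr.pos v0.1), ⟨hrmem _ hle, mem_univ _⟩, rfl⟩
  -- (2)
  have htopN : ∀ σ ∈ Tr.T, ω ((ord σ).map fun x => (x, N)) = 0 := by
    intro σ _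
    rw [hω]
    unfold hz
    rw [if_neg]
    intro hmem
    have hsub : convexHull ℝ (insert zt (p '' {v | v ∈ (ord σ).map fun x => (x, N)})) ⊆
        {q : ℝ × E (d + 1) | s < q.1} := by
      refine convexHull_min ?_ ?_
      · rintro q (rfl | ⟨v, hv, rfl⟩)
        · show s < s + 1
          linarith
        · rw [mem_setOf_eq, List.mem_map] at hv
          obtain ⟨x, -, rfl⟩ := hv
          show s < (Ψ (r N) (Tr.pos x)).1
          have := hΨlow (r N) (Tr.pos x) (by rw [hrN]; exact hR0.le)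
          rw [hrN] at this ⊢
          linarith [hys.2]
      · exact (convex_Ioi s).is_linear_preimage (LinearMap.fst ℝ ℝ (E (d + 1))).isLinear
    exact lt_irrefl s (hsub hmem)
  -- (3)
  have htop0 : ∀ σ ∈ Tr.T, ω ((ord σ).map fun x => (x, 0)) = 0 := by
    intro σ _
    rw [hω]
    unfold hz
    rw [if_neg]
    intro hmem
    obtain ⟨h, hh, h2⟩ := vert1 hmem
    have hsub : convexHull ℝ (p '' {v | v ∈ (ord σ).map fun x => (x, 0)}) ⊆
        {((‖η‖ ^ 2 / 6, -η) : ℝ × E (d + 1))} := by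
      refine convexHull_min ?_ (convex_singleton _)
      rintro _ ⟨v, hv, rfl⟩
      rw [mem_setOf_eq, List.mem_map] at hv
      obtain ⟨x, -, rfl⟩ := hv
      rw [mem_singleton_iff]
      show Ψ (r 0) (Tr.pos x) = _
      rw [hr0]
      exact hΨ0 _
    have h3 := hsub hh
    rw [mem_singleton_iff] at h3
    rw [h3] at h2
    exact hy3 h2.symm
  -- (4)
  have hbdry : ∀ F ∈ Tr.B, ∀ k ∈ Finset.range N, pr k ω (ord F) =
      pr k (hl (fun x : Tr.V × ℕ => r x.2 • (Tr.b x.1 : E (d + 1)) - η) τ) (ord F) := by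
    intro F hF k hk
    rw [Finset.mem_range] at hk
    refine hCC _ k _ _ (ord F) (hord F).1 ?_
    intro t _ _ htm
    obtain ⟨-, σ, hσ, hFσ⟩ := Tr.B_sub F hF
    have hpv : ∀ v ∈ t, p v = (‖r v.2 • (Tr.b v.1 : E (d + 1)) - η‖ ^ 2 / 6,
        r v.2 • (Tr.b v.1 : E (d + 1)) - η) := by
      intro v hv
      have hvF : v.1 ∈ F := ((hord F).2 _).1 (htm v hv).1
      show Ψ (r v.2) (Tr.pos v.1) = _
      rw [← Tr.b_spec F hF v.1 hvF]
      exact hΨbd _ _ (by simp only [hr]; positivity)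
    have himg : (LinearMap.snd ℝ ℝ (E (d + 1))) '' (p '' {v | v ∈ t}) =
        (fun x : Tr.V × ℕ => r x.2 • (Tr.b x.1 : E (d + 1)) - η) '' {v | v ∈ t} := by
      rw [image_image]
      refine image_congr fun v hv => ?_
      show (p v).2 = _
      rw [hpv v hv]
    have hiff : ((s, τ) : ℝ × E (d + 1)) ∈ convexHull ℝ (insert zt (p '' {v | v ∈ t})) ↔
        τ ∈ convexHull ℝ ((fun x : Tr.V × ℕ => r x.2 • (Tr.b x.1 : E (d + 1)) - η) ''
          {v | v ∈ t}) := by
      rw [← himg, ← LinearMap.image_convexHull]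
      constructor
      · intro hmem
        obtain ⟨h, hh, h2⟩ := vert1 hmem
        exact ⟨h, hh, h2⟩
      · intro hmem
        have hmem' := hmem
        obtain ⟨h, hh, h2⟩ := hmem
        have h2' : h.2 = τ := h2
        refine vert2 hh h2' ((top_bound _ τ δ ?_ hh h2').trans hsτ)
        rintro _ ⟨v, hv, rfl⟩
        refine ⟨by rw [hpv v hv], ?_⟩
        rw [LinearMap.image_convexHull] at hmem'
        have hsub : convexHull ℝ ((LinearMap.snd ℝ ℝ (E (d + 1))) '' (p '' {v | v ∈ t})) ⊆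
            closedBall (p v).2 δ := by
          refine convexHull_min ?_ (convex_closedBall _ _)
          rintro _ ⟨_, ⟨w, hw, rfl⟩, rfl⟩
          rw [mem_closedBall]
          have hd' := hclose σ hσ w.1 (hFσ (((hord F).2 _).1 (htm w hw).1)) v.1
            (hFσ (((hord F).2 _).1 (htm v hv).1)) k hk w.2 v.2 (htm w hw).2 (htm v hv).2
          rw [Prod.dist_eq] at hd'
          exact (le_max_right _ _).trans hd'.le
        have h5 := hsub hmem'
        rw [mem_closedBall, dist_comm, dist_eq_norm] at h5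
        exact h5
    rw [hω]
    unfold hz hl
    by_cases h : τ ∈ convexHull ℝ ((fun x : Tr.V × ℕ => r x.2 • (Tr.b x.1 : E (d + 1)) - η) ''
          {v | v ∈ t})
    · rw [if_pos h, if_pos (hiff.2 h)]
    · rw [if_neg h, if_neg (fun h' => h (hiff.1 h'))]
  -- the sum
  have hnorm : ‖τ + η‖ < r N / 2 := by
    rw [hrN]
    refine lt_of_le_of_lt ?_ hR0'
    have e1 : τ + η = (z0.2 + η) + (τ - z0.2) := by abel
    rw [e1]
    refine (norm_add_le _ _).trans ?_
    rw [dist_eq_norm] at hyτ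
    linarith
  have hone := hy4 hnorm
  have hsum : ∑ k ∈ Finset.range N, ∑ σ ∈ Tr.T, pr k (dd ω) (ord σ) = 0 :=
    Finset.sum_eq_zero fun k hk => Finset.sum_eq_zero fun σ hσ =>
      hzero σ hσ k (Finset.mem_range.1 hk)
  have hexp : ∑ k ∈ Finset.range N, ∑ σ ∈ Tr.T, pr k (dd ω) (ord σ) =
      (∑ σ ∈ Tr.T, ∑ k ∈ Finset.range N, (ω ((ord σ).map fun x => (x, k + 1)) +
        ω ((ord σ).map fun x => (x, k)))) +
      ∑ F ∈ Tr.B, ∑ k ∈ Finset.range N, pr k ω (ord F) := by
    rw [Finset.sum_comm (s := Tr.T), Finset.sum_comm (s := Tr.B), ← Finset.sum_add_distrib]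
    refine Finset.sum_congr rfl fun k _ => ?_
    rw [← hordT (pr k ω), ← Finset.sum_add_distrib]
    exact Finset.sum_congr rfl fun σ _ => hCA.2.2 _ k ω (ord σ)
  have htel : ∑ σ ∈ Tr.T, ∑ k ∈ Finset.range N, (ω ((ord σ).map fun x => (x, k + 1)) +
        ω ((ord σ).map fun x => (x, k))) = 0 := by
    refine Finset.sum_eq_zero fun σ hσ => ?_
    rw [tele (fun k => ω ((ord σ).map fun x => (x, k))) N, htopN σ hσ, htop0 σ hσ, add_zero]
  have hB : ∑ F ∈ Tr.B, ∑ k ∈ Finset.range N, pr k ω (ord F) = 1 := by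
    rw [← hone]
    exact Finset.sum_congr rfl fun F hF => Finset.sum_congr rfl fun k hk => hbdry F hF k hk
  rw [hsum, htel, hB, zero_add] at hexp
  exact zero_ne_one hexp

end Pool.Agent.W440.FV
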